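import Pool.Agent.H84.Qcf

namespace Pool.Agent.Results.MP_6bb66b_gt.Cex

open Pool.Agent.H84.QcfDefs

theorem result (T : Type) [PartialOrder T] (h : FreeSuslin T) (hp : PBig) :
    ∃ (X : Type) (_ : TopologicalSpace X), Uncountable X ∧ T2Space X ∧ SemiRegular X ∧
      OpenWhyburn X ∧ FrechetUrysohnSpace {f : X → ℝ // QuasiCont f} :=
  Pool.Agent.H84.Qcf.main h hp

end Pool.Agent.Results.MP_6bb66b_gt.Cex
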